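import Pool.Agent.Run7.h440.Chr
import Pool.Agent.H379R2.W.Strong

set_option autoImplicit false

/-!
# Characters of a power of two order attached to the prime factors of an integer which passes the
strong test
-/

namespace Pool.Agent.Run7.h440.WT

open Finset Pool.Agent.H379R2.W Pool.Agent.Run7.h440

/-- evaluation at a unit -/
noncomputable def ev {f : ℕ} (u : (ZMod f)ˣ) : DirichletCharacter ℂ f →* ℂ where
  toFun χ := χ (u : ZMod f)
  map_one' := MulChar.one_apply_coe u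
  map_mul' _ _ := rfl

theorem prod_unit {f : ℕ} {ι : Type*} (s : Finset ι) (χ : ι → DirichletCharacter ℂ f) (u : (ZMod f)ˣ) :
    (∏ i ∈ s, χ i) (u : ZMod f) = ∏ i ∈ s, χ i (u : ZMod f) :=
  map_prod (ev u) χ s

theorem prod_nat {f : ℕ} {ι : Type*} (s : Finset ι) (χ : ι → DirichletCharacter ℂ f) {b : ℕ}
    (hb : b.Coprime f) : (∏ i ∈ s, χ i) (b : ZMod f) = ∏ i ∈ s, χ i (b : ZMod f) :=
  prod_unit s χ (ZMod.unitOfCoprime b hb)

theorem level_nat {d f : ℕ} (h : d ∣ f) (χ : DirichletCharacter ℂ d) {b : ℕ} (hb : b.Coprime f) :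
    DirichletCharacter.changeLevel h χ (b : ZMod f) = χ (b : ZMod d) := by
  have h1 := DirichletCharacter.changeLevel_eq_cast_of_dvd χ h (ZMod.unitOfCoprime b hb)
  rw [ZMod.coe_unitOfCoprime] at h1
  rw [h1, ZMod.cast_natCast h]

theorem sq_one {R : Type*} [CommRing R] [IsDomain R] {x : R} (h : x ^ 2 = 1) : x = 1 ∨ x = -1 := by
  have h1 : (x - 1) * (x + 1) = 0 := by linear_combination h
  rcases mul_eq_zero.1 h1 with h2 | h2
  · left; linear_combination h2
  · right; linear_combination h2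

/-- a product of nontrivial characters modulo different primes is primitive -/
theorem exists_prim (S : Finset ℕ) (hS : ∀ p ∈ S, p.Prime) (ψ : ∀ p : ℕ, DirichletCharacter ℂ p)
    (hψ : ∀ p ∈ S, ∃ g : ℕ, g.Coprime p ∧ ψ p (g : ZMod p) ≠ 1) :
    ∃ χ : DirichletCharacter ℂ (∏ p ∈ S, p), χ.IsPrimitive ∧
      ∀ b : ℕ, b.Coprime (∏ p ∈ S, p) → χ (b : ZMod (∏ p ∈ S, p)) = ∏ p ∈ S, ψ p (b : ZMod p) := by
  classical
  set f := ∏ p ∈ S, p with hf
  have hf0 : f ≠ 0 := prod_ne_zero_iff.2 fun p hp => (hS p hp).ne_zero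
  have : NeZero f := ⟨hf0⟩
  have hdvd : ∀ p ∈ S, p ∣ f := fun p hp => dvd_prod_of_mem _ hp
  set χ : DirichletCharacter ℂ f :=
    ∏ p ∈ S.attach, DirichletCharacter.changeLevel (hdvd p.1 p.2) (ψ p.1) with hχ
  have hval : ∀ b : ℕ, b.Coprime f → χ (b : ZMod f) = ∏ p ∈ S, ψ p (b : ZMod p) := by
    intro b hb
    rw [hχ, prod_nat _ _ hb, ← prod_attach S]
    exact prod_congr rfl fun p _ => level_nat (hdvd p.1 p.2) (ψ p.1) hb
  refine ⟨χ, ?_, hval⟩
  rw [DirichletCharacter.isPrimitive_def]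
  by_contra hne
  obtain ⟨k, hk⟩ := χ.conductor_dvd_level
  have hk1 : k ≠ 1 := by
    rintro rfl
    rw [mul_one] at hk
    exact hne hk.symm
  obtain ⟨p, hp, hpk⟩ := Nat.exists_prime_and_dvd hk1
  have hpf : p ∣ f := hk ▸ dvd_mul_of_dvd_right hpk _
  obtain ⟨q, hqS, hpq⟩ := (Prime.dvd_finsetProd_iff hp.prime _).1 hpf
  have hpq' : p = q := (Nat.prime_dvd_prime_iff_eq hp (hS q hqS)).1 hpq
  subst hpq'
  -- the conductor divides `f / p`
  obtain ⟨m, hm⟩ := hpf
  have hm0 : m ≠ 0 := by rintro rfl; rw [mul_zero] at hm; exact hf0 hm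
  have hcop : p.Coprime m := by
    have h1 : f = p * ∏ q ∈ S.erase p, q := by rw [hf, mul_prod_erase S (fun q => q) hqS]
    have h2 : m = ∏ q ∈ S.erase p, q := Nat.eq_of_mul_eq_mul_left hp.pos (hm.symm.trans h1)
    rw [h2]
    exact Nat.Coprime.prod_right fun q hq =>
      (Nat.coprime_primes hp (hS q (mem_of_mem_erase hq))).2 (ne_of_mem_erase hq).symm
  have hcm : χ.conductor ∣ m := by
    obtain ⟨k', rfl⟩ := hpk
    have : p * (χ.conductor * k') = p * m := by
      calc p * (χ.conductor * k') = χ.conductor * (p * k') := by ring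
        _ = f := hk.symm
        _ = p * m := hm
    exact ⟨k', (Nat.eq_of_mul_eq_mul_left hp.pos this).symm⟩
  obtain ⟨g, hg, hgψ⟩ := hψ p hqS
  obtain ⟨b, hb1, hb2⟩ := Nat.chineseRemainder hcop g 1
  have hbp : b.Coprime p := by
    have h1 : Nat.gcd b p = Nat.gcd g p := hb1.gcd_eq
    rw [Nat.Coprime, h1]
    exact hg
  have hbm : b.Coprime m := by
    have h1 : Nat.gcd b m = Nat.gcd 1 m := hb2.gcd_eq
    rw [Nat.Coprime, h1, Nat.gcd_one_left]
  have hbf : b.Coprime f := by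
    rw [hm]
    exact Nat.Coprime.mul_right hbp hbm
  have h3 := hval b hbf
  have h4 : ∏ q ∈ S, ψ q (b : ZMod q) = ψ p (g : ZMod p) := by
    rw [← mul_prod_erase S _ hqS]
    have e1 : ((b : ℕ) : ZMod p) = (g : ZMod p) := (ZMod.natCast_eq_natCast_iff _ _ _).2 hb1
    rw [e1, prod_eq_one, mul_one]
    intro q hq
    have hqm : q ∣ m := by
      have hqf : q ∣ p * m := hm ▸ hdvd q (mem_of_mem_erase hq)
      rcases (Nat.Prime.dvd_mul (hS q (mem_of_mem_erase hq))).1 hqf with h | h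
      · exact absurd ((Nat.prime_dvd_prime_iff_eq (hS q (mem_of_mem_erase hq)) hp).1 h)
          (ne_of_mem_erase hq)
      · exact h
    have e2 : ((b : ℕ) : ZMod q) = ((1 : ℕ) : ZMod q) :=
      (ZMod.natCast_eq_natCast_iff _ _ _).2 (hb2.of_dvd hqm)
    rw [e2, Nat.cast_one, map_one]
  have h5 : χ (b : ZMod f) = 1 := by
    have hfac := χ.factorsThrough_conductor
    obtain ⟨hd, χ₀, hχ₀⟩ := hfac
    rw [hχ₀, level_nat hd χ₀ hbf]
    have e3 : ((b : ℕ) : ZMod χ.conductor) = ((1 : ℕ) : ZMod χ.conductor) :=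
      (ZMod.natCast_eq_natCast_iff _ _ _).2 (hb2.of_dvd hcm)
    rw [e3, Nat.cast_one, map_one]
  rw [h3, h4] at h5
  exact hgψ h5

/-- a character modulo `q` which is `1` at the `x` with `x ^ M = 1`, `-1` at those with `x ^ M = -1` -/
theorem exists_psi {q u : ℕ} (hq : q.Prime) (hq2 : q ≠ 2) (hu : 1 ≤ u) (huv : u ≤ v2 q) {t : ℕ}
    (ht : q - 1 = 2 ^ v2 q * t) :
    ∃ ψ : DirichletCharacter ℂ q, (∃ g : ℕ, g.Coprime q ∧ ψ (g : ZMod q) ≠ 1) ∧
      (∀ b : ℕ, (b : ZMod q) ^ (2 ^ (u - 1) * t) = 1 → ψ (b : ZMod q) = 1) ∧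
      ∀ b : ℕ, (b : ZMod q) ^ (2 ^ (u - 1) * t) = -1 → ψ (b : ZMod q) = -1 := by
  have : Fact q.Prime := ⟨hq⟩
  have : Fact (2 < q) := ⟨lt_of_le_of_ne hq.two_le (Ne.symm hq2)⟩
  have hne : (-1 : ZMod q) ≠ 1 := ZMod.neg_one_ne_one
  set M := 2 ^ (u - 1) * t with hM
  have ht0 : t ≠ 0 := by
    rintro rfl
    have := hq.two_le
    omega
  have hM0 : M ≠ 0 := by rw [hM]; positivity
  obtain ⟨g, hg⟩ := IsCyclic.exists_generator (α := (ZMod q)ˣ)
  have hord : orderOf g = q - 1 := by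
    rw [orderOf_eq_card_of_forall_mem_zpowers hg, Nat.card_eq_fintype_card, ZMod.card_units]
  set h : (ZMod q)ˣ := g ^ (2 ^ (v2 q - u)) with hh
  have hhM2 : (h ^ M) ^ 2 = 1 := by
    rw [hh, ← pow_mul, ← pow_mul, ← pow_card_eq_one (x := g), ZMod.card_units, ht]
    congr 1
    rw [hM]
    have e : v2 q = (v2 q - u) + (u - 1) + 1 := by omega
    conv_rhs => rw [e, pow_add, pow_add]
    ring
  have hhM1 : h ^ M ≠ 1 := by
    intro h1
    rw [hh, ← pow_mul] at h1
    have h2 := Nat.le_of_dvd (by rw [hM]; positivity) (orderOf_dvd_of_pow_eq_one h1)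
    rw [hord, ht] at h2
    have e : v2 q = (v2 q - u) + (u - 1) + 1 := by omega
    have h3 : 2 ^ v2 q * t = 2 * (2 ^ (v2 q - u) * M) := by
      rw [hM]
      conv_lhs => rw [e, pow_add, pow_add]
      ring
    rw [h3] at h2
    have : 0 < 2 ^ (v2 q - u) * M := by positivity
    omega
  have hhM : ((h : ZMod q)) ^ M = -1 := by
    have h1 : ((h : ZMod q) ^ M) ^ 2 = 1 := by
      have := congrArg (Units.val) hhM2
      push_cast at this
      exact this
    rcases sq_one h1 with h2 | h2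
    · exfalso
      apply hhM1
      apply Units.ext
      push_cast
      exact h2
    · exact h2
  set Γ : Subgroup (ZMod q)ˣ := (powMonoidHom M).ker with hΓ
  have hmem : ∀ x : (ZMod q)ˣ, x ∈ Γ ↔ (x : ZMod q) ^ M = 1 := by
    intro x
    rw [hΓ, MonoidHom.mem_ker, powMonoidHom_apply, ← Units.val_eq_one]
    push_cast
    rfl
  have hhΓ : h ∉ Γ := by
    rw [hmem, hhM]
    exact hne
  obtain ⟨ψ, hψ1, hψ2⟩ := exists_char_sub Γ hhΓ
  have hψh : ψ (h : ZMod q) = -1 := by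
    have h1 : ψ ((h * h : (ZMod q)ˣ) : ZMod q) = 1 := by
      apply hψ1
      rw [hmem]
      push_cast
      rw [mul_pow, hhM]
      norm_num
    rw [Units.val_mul, map_mul, ← sq] at h1
    rcases sq_one h1 with h2 | h2
    · exact absurd h2 hψ2
    · exact h2
  have hunit : ∀ b : ℕ, (b : ZMod q) ^ M ≠ 0 → ∃ w : (ZMod q)ˣ, (w : ZMod q) = b := by
    intro b hb
    have : (b : ZMod q) ≠ 0 := by
      intro h0
      rw [h0, zero_pow hM0] at hb
      exact hb rfl
    exact ⟨Units.mk0 _ this, rfl⟩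
  refine ⟨ψ, ⟨(h : ZMod q).val, ?_, ?_⟩, ?_, ?_⟩
  · exact ZMod.val_coe_unit_coprime h
  · rw [ZMod.natCast_zmod_val, hψh]
    norm_num
  · intro b hb
    obtain ⟨w, hw⟩ := hunit b (by rw [hb]; exact one_ne_zero)
    rw [← hw]
    apply hψ1
    rw [hmem, hw]
    exact hb
  · intro b hb
    obtain ⟨w, hw⟩ := hunit b (by rw [hb]; exact neg_ne_zero.2 one_ne_zero)
    have h1 : ψ ((w * h : (ZMod q)ˣ) : ZMod q) = 1 := by
      apply hψ1
      rw [hmem]
      push_cast
      rw [mul_pow, hhM, hw, hb]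
      norm_num
    rw [Units.val_mul, map_mul, hψh, hw] at h1
    linear_combination -h1

theorem cast_pow {n q : ℕ} (hq : q ∣ n) {b k : ℕ} {e : ℤ} (he : (b : ZMod n) ^ k = (e : ZMod n)) :
    (b : ZMod q) ^ k = (e : ZMod q) := by
  have h1 := congrArg (ZMod.castHom hq (ZMod q)) he
  rwa [map_pow, map_natCast, map_intCast] at h1

/-- **The common sign.** If `n` passes for `b`, then the power of `b` has the same sign at all
primes `q ∣ n`. -/
theorem sign_eq {n b p : ℕ} (h : Passes n b) (hp : p.Prime) (hp2 : p ≠ 2) (hpn : p ∣ n) :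
    (∀ q : ℕ, q.Prime → q ≠ 2 → q ∣ n → v2 p ≤ v2 q → ∀ t : ℕ, q - 1 = 2 ^ v2 q * t → Odd t →
      (b : ZMod q) ^ (2 ^ (v2 p - 1) * t) = 1) ∨
    (∀ q : ℕ, q.Prime → q ≠ 2 → q ∣ n → v2 p ≤ v2 q → ∀ t : ℕ, q - 1 = 2 ^ v2 q * t → Odd t →
      (b : ZMod q) ^ (2 ^ (v2 p - 1) * t) = -1) := by
  obtain ⟨j, d, h1, hd, h3⟩ := h
  have hv := v2_pos hp hp2
  -- the power is a root of unity of order a power of two
  have key : ∀ q : ℕ, q.Prime → v2 p ≤ v2 q → ∀ t : ℕ, q - 1 = 2 ^ v2 q * t → (b : ZMod q) ≠ 0 →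
      ((b : ZMod q) ^ (2 ^ (v2 p - 1) * t)) ^ (2 ^ (v2 q - v2 p + 1)) = 1 := by
    intro q hq hle t ht hb0
    have : Fact q.Prime := ⟨hq⟩
    rw [← pow_mul, ← ZMod.pow_card_sub_one_eq_one hb0, ht]
    congr 1
    have e : v2 q = (v2 p - 1) + (v2 q - v2 p + 1) := by omega
    conv_rhs => rw [e, pow_add]
    ring
  rcases h3 with h3 | ⟨i, hi, h3⟩
  · left
    intro q hq hq2 hqn hle t ht hto
    have : Fact q.Prime := ⟨hq⟩
    have h4 : (b : ZMod q) ^ d = 1 := by
      have := cast_pow hqn (e := 1) (by rw [h3]; norm_num)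
      simpa using this
    have hb0 : (b : ZMod q) ≠ 0 := by
      intro h0
      rw [h0, zero_pow hd.pos.ne'] at h4
      exact zero_ne_one h4
    have h5 : ((b : ZMod q) ^ (2 ^ (v2 p - 1) * t)) ^ d = 1 := by
      rw [← pow_mul, mul_comm, pow_mul, h4, one_pow]
    have h6 := orderOf_dvd_of_pow_eq_one h5
    have h7 := orderOf_dvd_of_pow_eq_one (key q hq hle t ht hb0)
    have h8 : Nat.Coprime d (2 ^ (v2 q - v2 p + 1)) :=
      (Nat.coprime_pow_right_iff (by omega) _ _).2 (Nat.coprime_two_right.2 hd)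
    have h9 : orderOf ((b : ZMod q) ^ (2 ^ (v2 p - 1) * t)) = 1 :=
      Nat.eq_one_of_dvd_coprimes h8 h6 h7
    exact orderOf_eq_one_iff.1 h9
  · have hnq : ∀ q : ℕ, q ∣ n → (b : ZMod q) ^ (2 ^ i * d) = -1 := by
      intro q hqn
      have := cast_pow hqn (e := -1) (by rw [h3]; norm_num)
      simpa using this
    have hlev := (legendre_level hp hp2 hd (hnq p hpn)).1
    have main : ∀ q : ℕ, q.Prime → q ≠ 2 → q ∣ n → v2 p ≤ v2 q → ∀ t : ℕ, q - 1 = 2 ^ v2 q * t →
        Odd t → ((b : ZMod q) ^ (2 ^ (v2 p - 1) * t) = 1 ∨ (b : ZMod q) ^ (2 ^ (v2 p - 1) * t) = -1) ∧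
        ((b : ZMod q) ^ (2 ^ (v2 p - 1) * t)) ^ d = ((-1 : ZMod q)) ^ (2 ^ (v2 p - 1 - i) * t) := by
      intro q hq hq2 hqn hle t ht hto
      have : Fact q.Prime := ⟨hq⟩
      have hb0 : (b : ZMod q) ≠ 0 := by
        intro h0
        have h4 := hnq q hqn
        rw [h0, zero_pow (by have := hd.pos; positivity)] at h4
        have : (1 : ZMod q) = 0 := by linear_combination h4
        exact one_ne_zero this
      have h5 : ((b : ZMod q) ^ (2 ^ (v2 p - 1) * t)) ^ d = ((-1 : ZMod q)) ^ (2 ^ (v2 p - 1 - i) * t) := by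
        rw [← hnq q hqn, ← pow_mul, ← pow_mul]
        congr 1
        have e : v2 p - 1 = i + (v2 p - 1 - i) := by omega
        conv_lhs => rw [e, pow_add]
        ring
      refine ⟨?_, h5⟩
      have h6 : ((b : ZMod q) ^ (2 ^ (v2 p - 1) * t)) ^ (2 * d) = 1 := by
        rw [mul_comm 2 d, pow_mul, h5, ← pow_mul, mul_comm _ 2, pow_mul]
        norm_num
      have h7 := orderOf_dvd_of_pow_eq_one h6
      have h8 := orderOf_dvd_of_pow_eq_one (key q hq hle t ht hb0)
      have h9 : orderOf ((b : ZMod q) ^ (2 ^ (v2 p - 1) * t)) ∣ 2 := by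
        have hc : Nat.Coprime (orderOf ((b : ZMod q) ^ (2 ^ (v2 p - 1) * t))) d :=
          Nat.Coprime.coprime_dvd_left h8 ((Nat.coprime_pow_left_iff (by omega) _ _).2
            (Nat.coprime_two_left.2 hd))
        exact hc.dvd_of_dvd_mul_right h7
      exact sq_one (orderOf_dvd_iff_pow_eq_one.1 h9)
    by_cases hiu : i = v2 p - 1
    · right
      intro q hq hq2 hqn hle t ht hto
      have : Fact q.Prime := ⟨hq⟩
      have : Fact (2 < q) := ⟨lt_of_le_of_ne hq.two_le (Ne.symm hq2)⟩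
      have hne : (-1 : ZMod q) ≠ 1 := ZMod.neg_one_ne_one
      obtain ⟨h4, h5⟩ := main q hq hq2 hqn hle t ht hto
      rcases h4 with h4 | h4
      · exfalso
        rw [h4, one_pow, hiu, Nat.sub_self, pow_zero, one_mul, hto.neg_one_pow] at h5
        exact hne h5.symm
      · exact h4
    · left
      intro q hq hq2 hqn hle t ht hto
      have : Fact q.Prime := ⟨hq⟩
      have : Fact (2 < q) := ⟨lt_of_le_of_ne hq.two_le (Ne.symm hq2)⟩
      have hne : (-1 : ZMod q) ≠ 1 := ZMod.neg_one_ne_one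
      obtain ⟨h4, h5⟩ := main q hq hq2 hqn hle t ht hto
      rcases h4 with h4 | h4
      · exact h4
      · exfalso
        have hev : Even (2 ^ (v2 p - 1 - i) * t) :=
          (Nat.even_pow.2 ⟨even_two, by omega⟩).mul_right _
        rw [h4, hd.neg_one_pow, hev.neg_one_pow] at h5
        exact hne h5

end Pool.Agent.Run7.h440.WT
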