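import Pool.Agent.Run7.h440.WT.A
import Pool.Agent.Run7.h440.Exc
import Pool.Agent.R496.SmoothN

set_option autoImplicit false

/-!
# Composite numbers without a small witness: the large sieve
-/

namespace Pool.Agent.Run7.h440.WT

open Finset Pool.Agent.H379R2.W Pool.Agent.Run7.h440 Pool.Agent.R496

/-- there is a primitive character modulo `f` which is `1` at `1, …, y` -/
def Tri (y f : ℕ) : Prop :=
  ∃ χ : DirichletCharacter ℂ f, χ.IsPrimitive ∧ ∀ b : ℕ, 1 ≤ b → b ≤ y → χ (b : ZMod f) = 1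

/-- the large sieve bound -/
theorem sieve {Q y N : ℕ} {E : Finset ℕ} (hN : Q ^ 2 ≤ N) (hE : ∀ f ∈ E, 1 ≤ f ∧ f ≤ Q ∧ Tri y f) :
    (E.card : ℝ) * (ysm y N).card ≤ 12 * (N : ℝ) := by
  classical
  set S := ysm y N with hS
  have hLS := Helper112.mult_large_sieve N Q (fun n => if n ∈ S then (1 : ℂ) else 0)
  have hsub : E ⊆ Icc 1 Q := by
    intro p hp
    rw [mem_Icc]
    exact ⟨(hE p hp).1, (hE p hp).2.1⟩
  have hSI : S ⊆ Icc 1 N := by
    intro m hm
    rw [hS, mem_ysm] at hm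
    exact mem_Icc.2 hm.1
  have hlow : (E.card : ℝ) * (S.card : ℝ) ^ 2 ≤ ∑ f ∈ Icc 1 Q, ((f : ℝ) / (Nat.totient f : ℝ)) *
      ∑ χ ∈ (univ : Finset (DirichletCharacter ℂ f)).filter (fun χ => χ.IsPrimitive),
        ‖∑ n ∈ Icc 1 N, (if n ∈ S then (1 : ℂ) else 0) * χ (n : ZMod f)‖ ^ 2 := by
    rw [← nsmul_eq_mul, ← sum_const]
    refine le_trans (sum_le_sum ?_) (sum_le_sum_of_subset_of_nonneg hsub ?_)
    · intro p hp
      obtain ⟨hp1, hpQ, χ, hprim, hχ⟩ := hE p hp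
      have h1 : (S.card : ℝ) ^ 2 ≤
          ‖∑ n ∈ Icc 1 N, (if n ∈ S then (1 : ℂ) else 0) * χ (n : ZMod p)‖ ^ 2 := by
        have h2 : ∑ n ∈ Icc 1 N, (if n ∈ S then (1 : ℂ) else 0) * χ (n : ZMod p) = (S.card : ℂ) := by
          rw [sum_congr rfl (g := fun n => if n ∈ S then (1 : ℂ) else 0), ← sum_filter,
            filter_mem_eq_inter, inter_eq_right.2 hSI, sum_const, nsmul_eq_mul, mul_one]
          intro n _
          split_ifs with hn
          · rw [hS, mem_ysm] at hn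
            rw [one_mul]
            exact char_smooth hχ n hn.1.1 hn.2
          · rw [zero_mul]
        rw [h2, Complex.norm_natCast]
      have h2 : ‖∑ n ∈ Icc 1 N, (if n ∈ S then (1 : ℂ) else 0) * χ (n : ZMod p)‖ ^ 2 ≤
          ∑ χ ∈ (univ : Finset (DirichletCharacter ℂ p)).filter (fun χ => χ.IsPrimitive),
            ‖∑ n ∈ Icc 1 N, (if n ∈ S then (1 : ℂ) else 0) * χ (n : ZMod p)‖ ^ 2 :=
        single_le_sum (f := fun χ : DirichletCharacter ℂ p =>
          ‖∑ n ∈ Icc 1 N, (if n ∈ S then (1 : ℂ) else 0) * χ (n : ZMod p)‖ ^ 2)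
          (fun _ _ => sq_nonneg _) (mem_filter.mpr ⟨mem_univ _, hprim⟩)
      have h3 : (1 : ℝ) ≤ (p : ℝ) / (Nat.totient p : ℝ) := by
        have h0 : (0 : ℝ) < (Nat.totient p : ℝ) := by
          exact_mod_cast Nat.totient_pos.mpr hp1
        rw [le_div_iff₀ h0, one_mul]
        exact_mod_cast Nat.totient_le p
      calc (S.card : ℝ) ^ 2 ≤ _ := h1.trans h2
        _ ≤ _ := le_mul_of_one_le_left (sum_nonneg fun _ _ => sq_nonneg _) h3
    · intro f _ _
      exact mul_nonneg (div_nonneg (Nat.cast_nonneg _) (Nat.cast_nonneg _))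
        (sum_nonneg fun _ _ => sq_nonneg _)
  have hsq : ∑ n ∈ Icc 1 N, ‖(if n ∈ S then (1 : ℂ) else 0)‖ ^ 2 = (S.card : ℝ) := by
    rw [sum_congr rfl (g := fun n => if n ∈ S then (1 : ℝ) else 0), ← sum_filter,
      filter_mem_eq_inter, inter_eq_right.2 hSI, sum_const, nsmul_eq_mul, mul_one]
    intro n _
    split_ifs <;> simp
  have hNr : (Q : ℝ) ^ 2 ≤ N := by exact_mod_cast hN
  have h5 : (E.card : ℝ) * (S.card : ℝ) ^ 2 ≤ 12 * (N : ℝ) * S.card := by
    refine (hlow.trans (le_trans (b := 6 * ((N : ℝ) + (Q : ℝ) ^ 2) *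
        ∑ n ∈ Icc 1 N, ‖(if n ∈ S then (1 : ℂ) else 0)‖ ^ 2) (by convert hLS using 1) ?_))
    rw [hsq]
    apply mul_le_mul_of_nonneg_right _ (Nat.cast_nonneg _)
    linarith
  rcases Nat.eq_zero_or_pos S.card with h0 | h0
  · rw [h0]
    simp
  · have h0' : (0 : ℝ) < S.card := by exact_mod_cast h0
    have h6 : (E.card : ℝ) * S.card * S.card ≤ 12 * (N : ℝ) * S.card := by
      calc (E.card : ℝ) * S.card * S.card = (E.card : ℝ) * (S.card : ℝ) ^ 2 := by ring
        _ ≤ _ := h5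
    exact le_of_mul_le_mul_right h6 h0'

/-- `n` passes the strong test for all bases up to `y` -/
def Ps (y n : ℕ) : Prop := ∀ b : ℕ, 1 < b → b ≤ y → Passes n b

theorem prime_large {y n q : ℕ} (hn : 2 ≤ n) (h : Ps y n) (hq : q.Prime) (hqn : q ∣ n) : y < q := by
  by_contra hle
  push Not at hle
  exact not_dvd_of_passes hn hq hqn (h q hq.one_lt hle) dvd_rfl

/-- products of an even number of prime factors are conductors of trivial looking characters -/
theorem tri_of_even {y n : ℕ} (hn : 2 ≤ n) (hy : 2 ≤ y) (h : Ps y n) {S : Finset ℕ}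
    (hS : S ⊆ n.primeFactors) (hev : Even S.card) : Tri y (∏ p ∈ S, p) := by
  classical
  have hpr : ∀ q ∈ n.primeFactors, q.Prime ∧ q ∣ n ∧ q ≠ 2 := by
    intro q hq
    rw [Nat.mem_primeFactors] at hq
    refine ⟨hq.1, hq.2.1, ?_⟩
    have := prime_large hn h hq.1 hq.2.1
    omega
  have hne : n.primeFactors.Nonempty := Nat.nonempty_primeFactors.2 (by omega)
  obtain ⟨p, hp, hmin⟩ := exists_min_image n.primeFactors v2 hne
  obtain ⟨hp1, hp2, hp3⟩ := hpr p hp
  have hex : ∀ q : ℕ, ∃ ψ : DirichletCharacter ℂ q, q ∈ n.primeFactors →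
      (∃ g : ℕ, g.Coprime q ∧ ψ (g : ZMod q) ≠ 1) ∧ ∃ t : ℕ, Odd t ∧ q - 1 = 2 ^ v2 q * t ∧
      (∀ b : ℕ, (b : ZMod q) ^ (2 ^ (v2 p - 1) * t) = 1 → ψ (b : ZMod q) = 1) ∧
      ∀ b : ℕ, (b : ZMod q) ^ (2 ^ (v2 p - 1) * t) = -1 → ψ (b : ZMod q) = -1 := by
    intro q
    by_cases hq : q ∈ n.primeFactors
    · obtain ⟨hq1, hq2, hq3⟩ := hpr q hq
      obtain ⟨t, ht, hqt⟩ := v2_spec hq1.two_le
      obtain ⟨ψ, h1, h2, h3⟩ := exists_psi hq1 hq3 (v2_pos hp1 hp3) (hmin q hq) hqt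
      exact ⟨ψ, fun _ => ⟨h1, t, ht, hqt, h2, h3⟩⟩
    · exact ⟨1, fun h => absurd h hq⟩
  choose ψ hψ using hex
  obtain ⟨χ, hχ1, hχ2⟩ := exists_prim S (fun q hq => (hpr q (hS hq)).1) ψ
    (fun q hq => (hψ q (hS hq)).1)
  refine ⟨χ, hχ1, fun b hb1 hby => ?_⟩
  rcases Nat.lt_or_ge 1 b with hb | hb
  · have hpass := h b hb hby
    have hcop : b.Coprime (∏ p ∈ S, p) := by
      refine Nat.Coprime.prod_right fun q hq => ?_
      obtain ⟨hq1, hq2, hq3⟩ := hpr q (hS hq)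
      rw [Nat.coprime_comm, Nat.Prime.coprime_iff_not_dvd hq1]
      exact not_dvd_of_passes hn hq1 hq2 hpass
    rw [hχ2 b hcop]
    rcases sign_eq hpass hp1 hp3 hp2 with h1 | h1
    · refine prod_eq_one fun q hq => ?_
      obtain ⟨hq1, hq2, hq3⟩ := hpr q (hS hq)
      obtain ⟨_, t, ht, hqt, h2, h3⟩ := hψ q (hS hq)
      exact h2 b (h1 q hq1 hq3 hq2 (hmin q (hS hq)) t hqt ht)
    · rw [prod_congr rfl (g := fun _ => (-1 : ℂ)), prod_const, hev.neg_one_pow]
      intro q hq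
      obtain ⟨hq1, hq2, hq3⟩ := hpr q (hS hq)
      obtain ⟨_, t, ht, hqt, h2, h3⟩ := hψ q (hS hq)
      exact h3 b (h1 q hq1 hq3 hq2 (hmin q (hS hq)) t hqt ht)
  · have : b = 1 := by omega
    subst this
    rw [Nat.cast_one, map_one]

open Classical in
/-- the exceptions up to `x` -/
noncomputable def Exc (x y : ℕ) : Finset ℕ := (range (x + 1)).filter
  (fun n => 2 ≤ n ∧ ¬ n.Prime ∧ Ps y n)

open Classical in
noncomputable def Cd (x y : ℕ) : Finset ℕ := (Icc 1 x).filter (fun f => Tri y f)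

open Classical in
theorem mem_Exc {x y n : ℕ} : n ∈ Exc x y ↔ n ≤ x ∧ 2 ≤ n ∧ ¬ n.Prime ∧ Ps y n := by
  unfold Exc
  rw [mem_filter, mem_range, Nat.lt_succ_iff]

open Classical in
theorem mem_Cd {x y f : ℕ} : f ∈ Cd x y ↔ (1 ≤ f ∧ f ≤ x) ∧ Tri y f := by
  unfold Cd
  rw [mem_filter, mem_Icc]

/-- at most `e + e²` squarefree exceptions -/
theorem exc_card {x y : ℕ} (hy : 2 ≤ y) (hsq : ∀ n ∈ Exc x y, Squarefree n) :
    (Exc x y).card ≤ (Cd x y).card + (Cd x y).card ^ 2 := by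
  classical
  have hmem : ∀ n ∈ Exc x y, n ≤ x ∧ 2 ≤ n ∧ ¬ n.Prime ∧ Ps y n := by
    intro n hn
    unfold Exc at hn
    rw [mem_filter, mem_range] at hn
    exact ⟨by omega, hn.2⟩
  set A := (Exc x y).filter (fun n => Even n.primeFactors.card) with hA
  set B := (Exc x y).filter (fun n => ¬ Even n.primeFactors.card) with hB
  have hAB : (Exc x y).card = A.card + B.card := (card_filter_add_card_filter_not _).symm
  have hcd : ∀ {n : ℕ} {S : Finset ℕ}, n ∈ Exc x y → S ⊆ n.primeFactors → Even S.card →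
      (∏ p ∈ S, p) ∈ Cd x y := by
    intro n S hn hS hev
    obtain ⟨h1, h2, h3, h4⟩ := hmem n hn
    unfold Cd
    rw [mem_filter, mem_Icc]
    have hdvd : (∏ p ∈ S, p) ∣ n := (prod_dvd_prod_of_subset _ _ _ hS).trans (Nat.prod_primeFactors_dvd n)
    refine ⟨⟨?_, (Nat.le_of_dvd (by omega) hdvd).trans h1⟩, tri_of_even h2 hy h4 hS hev⟩
    exact Nat.pos_of_ne_zero (prod_ne_zero_iff.2 fun p hp => (Nat.prime_of_mem_primeFactors (hS hp)).ne_zero)
  have h1 : A ⊆ Cd x y := by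
    intro n hn
    rw [hA, mem_filter] at hn
    have h5 := hcd hn.1 (Subset.refl _) hn.2
    rwa [Nat.prod_primeFactors_of_squarefree (hsq n hn.1)] at h5
  have h2 : B.card ≤ (Cd x y).card ^ 2 := by
    rw [sq, ← card_product]
    have hfac : ∀ n ∈ B, n.minFac * (n / n.minFac) = n ∧ n.minFac.Prime ∧
        (n / n.minFac).minFac.Prime ∧ (n / n.minFac) ∈ Cd x y ∧
        n.minFac * (n / n.minFac).minFac ∈ Cd x y := by
      intro n hn
      rw [hB, mem_filter] at hn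
      obtain ⟨hn1, hn2⟩ := hn
      obtain ⟨h1, h2, h3, h4⟩ := hmem n hn1
      have hsf := hsq n hn1
      obtain ⟨p, hp⟩ : ∃ p, p = n.minFac := ⟨_, rfl⟩
      have hpp : p.Prime := hp ▸ Nat.minFac_prime (by omega)
      have hpn : p ∣ n := hp ▸ Nat.minFac_dvd n
      have hpm : p ∈ n.primeFactors := Nat.mem_primeFactors.2 ⟨hpp, hpn, by omega⟩
      have e0 : p * (n / p) = n := Nat.mul_div_cancel' hpn
      have e1 : p * ∏ q ∈ n.primeFactors.erase p, q = n := by
        rw [mul_prod_erase n.primeFactors (fun q => q) hpm, Nat.prod_primeFactors_of_squarefree hsf]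
      have e2 : n / p = ∏ q ∈ n.primeFactors.erase p, q :=
        Nat.eq_of_mul_eq_mul_left hpp.pos (e0.trans e1.symm)
      have hm1 : n / p ≠ 1 := by
        intro h
        rw [h, mul_one] at e0
        exact h3 (e0 ▸ hpp)
      obtain ⟨p', hp'⟩ : ∃ p', p' = (n / p).minFac := ⟨_, rfl⟩
      have hpp' : p'.Prime := hp' ▸ Nat.minFac_prime hm1
      have hpm' : p' ∣ n / p := hp' ▸ Nat.minFac_dvd _
      have hpn' : p' ∣ n := hpm'.trans (Nat.div_dvd_of_dvd hpn)
      have hne : p ≠ p' := by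
        intro h
        rw [← h] at hpm'
        have h5 : p * p ∣ n := by
          rw [← e0]
          exact Nat.mul_dvd_mul_left p hpm'
        exact hpp.one_lt.ne' (Nat.isUnit_iff.1 (hsf p h5))
      rw [← hp, ← hp']
      refine ⟨e0, hpp, hpp', ?_, ?_⟩
      · rw [e2]
        refine hcd hn1 (erase_subset _ _) ?_
        rw [card_erase_of_mem hpm]
        exact Nat.Odd.sub_odd (Nat.not_even_iff_odd.1 hn2) odd_one
      · have h5 := hcd (S := {p, p'}) hn1 (by
          intro q hq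
          rw [mem_insert, mem_singleton] at hq
          rcases hq with rfl | rfl
          · exact hpm
          · exact Nat.mem_primeFactors.2 ⟨hpp', hpn', by omega⟩) (by
          rw [card_pair hne]
          exact even_two)
        rwa [prod_pair hne] at h5
    refine card_le_card_of_injOn (fun n => (n / n.minFac, n.minFac * (n / n.minFac).minFac)) ?_ ?_
    · intro n hn
      obtain ⟨_, _, _, h5, h6⟩ := hfac n (mem_coe.1 hn)
      exact mem_coe.2 (mem_product.2 ⟨h5, h6⟩)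
    · intro n hn n' hn' heq
      obtain ⟨h1, h2, h3, _, _⟩ := hfac n (mem_coe.1 hn)
      obtain ⟨h1', h2', h3', _, _⟩ := hfac n' (mem_coe.1 hn')
      simp only [Prod.mk.injEq] at heq
      obtain ⟨e1, e2⟩ := heq
      rw [e1] at e2
      have e3 := Nat.eq_of_mul_eq_mul_right h3'.pos e2
      rw [← h1, ← h1', e1, e3]
  rw [hAB]
  exact Nat.add_le_add (card_le_card h1) h2

end Pool.Agent.Run7.h440.WT
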