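import Pool.Agent.Run7.h440.WT.B

set_option autoImplicit false

/-!
# Composite numbers without a small witness: the uniform bound
-/

namespace Pool.Agent.Run7.h440.WT

open Finset Pool.Agent.H379R2.W Pool.Agent.Run7.h440 Pool.Agent.R496

theorem unif : ∃ K : ℝ, 8 ≤ K ∧ ∀ x y J : ℕ, 1 ≤ J → x ^ 2 ≤ y ^ J →
    (K * (J : ℝ) ^ 2) ^ 8 ≤ y → ((Exc x y).card : ℝ) ≤ 288 * (K * (J : ℝ) ^ 2) ^ (2 * J) := by
  obtain ⟨K1, hK1, hlow⟩ := smooth_low
  obtain ⟨K2, hK2, hnsq⟩ := no_square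
  refine ⟨max K1 K2, le_max_of_le_left hK1, fun x y J hJ hxy hKy => ?_⟩
  obtain ⟨K, hK⟩ : ∃ K, K = max K1 K2 := ⟨_, rfl⟩
  rw [← hK] at hKy ⊢
  have hKK1 : K1 ≤ K := hK ▸ le_max_left _ _
  have hKK2 : K2 ≤ K := hK ▸ le_max_right _ _
  have hJ1 : (1 : ℝ) ≤ J := by exact_mod_cast hJ
  have hJ2 : (1 : ℝ) ≤ (J : ℝ) ^ 2 := one_le_pow₀ hJ1
  have hKJ : 8 ≤ K * (J : ℝ) ^ 2 := by nlinarith
  have hJ4 : (J : ℝ) ^ 4 ≤ y := by
    refine le_trans ?_ hKy
    have h1 : (J : ℝ) ^ 2 ≤ K * (J : ℝ) ^ 2 := by nlinarith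
    calc (J : ℝ) ^ 4 = ((J : ℝ) ^ 2) ^ 2 := by ring
      _ ≤ (K * (J : ℝ) ^ 2) ^ 2 := pow_le_pow_left₀ (by positivity) h1 2
      _ ≤ (K * (J : ℝ) ^ 2) ^ 8 := pow_le_pow_right₀ (by linarith) (by norm_num)
  have hy256 : 256 ≤ y := by
    have h1 : (8 : ℝ) ^ 8 ≤ y := (pow_le_pow_left₀ (by norm_num) hKJ 8).trans hKy
    have h2 : (256 : ℝ) ≤ y := le_trans (by norm_num) h1
    exact_mod_cast h2
  have hJ4' : J ^ 4 ≤ y := by exact_mod_cast hJ4
  -- squarefree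
  have hsq : ∀ n ∈ Exc x y, Squarefree n := by
    intro n hn
    obtain ⟨hnx, hn2, hnp, hps⟩ := mem_Exc.1 hn
    rw [Nat.squarefree_iff_prime_squarefree]
    intro p hp hpp
    rw [← sq] at hpp
    have h1 : p ^ 2 ≤ x := (Nat.le_of_dvd (by omega) hpp).trans (by omega)
    have h2 : p ^ 2 ≤ y ^ J := h1.trans ((Nat.le_self_pow (by norm_num) x).trans hxy)
    have h3 : Nat.log y (p ^ 2) ≤ J := by
      calc Nat.log y (p ^ 2) ≤ Nat.log y (y ^ J) := Nat.log_mono_right h2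
        _ = J := Nat.log_pow (by omega) J
    have h3r : (Nat.log y (p ^ 2) : ℝ) ≤ J := by exact_mod_cast h3
    refine hnsq n y p hn2 hy256 hp hpp ((Nat.pow_le_pow_left h3 4).trans hJ4') ?_ hps
    refine le_trans ?_ hKy
    apply pow_le_pow_left₀ (by positivity)
    apply mul_le_mul hKK2 _ (by positivity) (by linarith)
    exact pow_le_pow_left₀ (Nat.cast_nonneg _) h3r 2
  -- the number of conductors
  have hS := hlow y J hJ hy256 hJ4'
  have hpos : (0 : ℝ) < (ysm y (y ^ J)).card := by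
    have : 0 < (ysm y (y ^ J)).card := by
      rw [card_pos]
      refine ⟨1, ?_⟩
      rw [mem_ysm]
      refine ⟨⟨le_rfl, Nat.one_le_pow _ _ (by omega)⟩, fun p hp h => ?_⟩
      exact absurd (Nat.dvd_one.1 h) hp.one_lt.ne'
    exact_mod_cast this
  have hc := sieve (Q := x) (y := y) (N := y ^ J) (E := Cd x y) hxy (by
    intro f hf
    rw [mem_Cd] at hf
    exact ⟨hf.1.1, hf.1.2, hf.2⟩)
  set T : ℝ := 12 * (K * (J : ℝ) ^ 2) ^ J with hT
  have hT1 : 1 ≤ T := by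
    have : 1 ≤ (K * (J : ℝ) ^ 2) ^ J := one_le_pow₀ (by linarith)
    rw [hT]; linarith
  have hcT : ((Cd x y).card : ℝ) ≤ T := by
    have h1 : ((Cd x y).card : ℝ) * (ysm y (y ^ J)).card ≤ T * (ysm y (y ^ J)).card := by
      calc ((Cd x y).card : ℝ) * (ysm y (y ^ J)).card ≤ 12 * ((y ^ J : ℕ) : ℝ) := hc
        _ = 12 * (y : ℝ) ^ J := by push_cast; ring
        _ ≤ 12 * ((ysm y (y ^ J)).card * (K1 * (J : ℝ) ^ 2) ^ J) := by linarith
        _ ≤ 12 * ((ysm y (y ^ J)).card * (K * (J : ℝ) ^ 2) ^ J) := by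
            apply mul_le_mul_of_nonneg_left _ (by norm_num)
            apply mul_le_mul_of_nonneg_left _ hpos.le
            apply pow_le_pow_left₀ (by positivity)
            exact mul_le_mul_of_nonneg_right hKK1 (by positivity)
        _ = T * (ysm y (y ^ J)).card := by rw [hT]; ring
    exact le_of_mul_le_mul_right h1 hpos
  have hfin := exc_card (x := x) (y := y) (by omega) hsq
  have h2 : ((Exc x y).card : ℝ) ≤ ((Cd x y).card : ℝ) + ((Cd x y).card : ℝ) ^ 2 := by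
    exact_mod_cast hfin
  have h3 : ((Cd x y).card : ℝ) ^ 2 ≤ T ^ 2 := pow_le_pow_left₀ (Nat.cast_nonneg _) hcT 2
  have h4 : T ≤ T ^ 2 := by nlinarith
  calc ((Exc x y).card : ℝ) ≤ 2 * T ^ 2 := by linarith
    _ = 288 * (K * (J : ℝ) ^ 2) ^ (2 * J) := by
      rw [hT, mul_pow, ← pow_mul]
      ring

/-- dyadic summation -/
theorem dyadic {S : Set ℕ} [DecidablePred (· ∈ S)] {x₀ : ℕ} {G : ℝ → ℝ} (hG0 : ∀ x : ℕ, x₀ ≤ x → 0 ≤ G x)
    (hG : ∀ x x' : ℕ, x₀ ≤ x → x ≤ x' → G x ≤ G x')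
    (h : ∀ x : ℕ, x₀ ≤ x → (#{n ∈ range (x + 1) | x < n ^ 2 ∧ n ∈ S} : ℝ) ≤ G x) :
    ∀ k x : ℕ, x < 2 ^ (2 ^ k) → (#{n ∈ range (x + 1) | n ∈ S} : ℝ) ≤ x₀ + 2 + k * G (max x x₀ : ℕ) := by
  have hsmall : ∀ x : ℕ, x < x₀ + 2 → ∀ k : ℕ,
      (#{n ∈ range (x + 1) | n ∈ S} : ℝ) ≤ x₀ + 2 + k * G (max x x₀ : ℕ) := by
    intro x hx k
    have h1 : #{n ∈ range (x + 1) | n ∈ S} ≤ x + 1 := (card_filter_le _ _).trans (card_range _).le
    have h2 : (#{n ∈ range (x + 1) | n ∈ S} : ℝ) ≤ x₀ + 2 := by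
      have : #{n ∈ range (x + 1) | n ∈ S} ≤ x₀ + 2 := by omega
      exact_mod_cast this
    have h3 : 0 ≤ (k : ℝ) * G (max x x₀ : ℕ) := mul_nonneg (Nat.cast_nonneg _) (hG0 _ (le_max_right _ _))
    linarith
  intro k
  induction k with
  | zero =>
    intro x hx
    apply hsmall
    simp at hx
    omega
  | succ k ih =>
    intro x hx
    rcases Nat.lt_or_ge x (x₀ + 2) with hc | hc
    · exact hsmall x hc _
    have hs : Nat.sqrt x < 2 ^ (2 ^ k) := by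
      rw [Nat.sqrt_lt']
      calc x < 2 ^ (2 ^ (k + 1)) := hx
        _ = (2 ^ (2 ^ k)) ^ 2 := by rw [← pow_mul, pow_succ]
    have h1 := ih _ hs
    have hsx : Nat.sqrt x ≤ x := Nat.sqrt_le_self x
    have h2 : ((filter (fun n => n ∈ S) (range (x + 1))) : Finset ℕ) ⊆
        (filter (fun n => n ∈ S) (range (Nat.sqrt x + 1))) ∪
        (filter (fun n => x < n ^ 2 ∧ n ∈ S) (range (x + 1))) := by
      intro n hn
      rw [mem_filter, mem_range] at hn
      rw [mem_union, mem_filter, mem_filter, mem_range, mem_range]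
      rcases Nat.lt_or_ge x (n ^ 2) with h3 | h3
      · exact Or.inr ⟨hn.1, h3, hn.2⟩
      · left
        refine ⟨?_, hn.2⟩
        have := Nat.le_sqrt'.2 h3
        omega
    have h3 := (card_le_card h2).trans (card_union_le _ _)
    have h3r : (#{n ∈ range (x + 1) | n ∈ S} : ℝ) ≤ (#{n ∈ range (Nat.sqrt x + 1) | n ∈ S} : ℝ) +
        (#{n ∈ range (x + 1) | x < n ^ 2 ∧ n ∈ S} : ℝ) := by exact_mod_cast h3
    have h4 := h x (by omega)
    have h5 : G (max (Nat.sqrt x) x₀ : ℕ) ≤ G (max x x₀ : ℕ) :=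
      hG _ _ (le_max_right _ _) (max_le_max_right _ hsx)
    have h6 : G x ≤ G (max x x₀ : ℕ) := hG _ _ (by omega) (le_max_left _ _)
    have h7 : (k : ℝ) * G (max (Nat.sqrt x) x₀ : ℕ) ≤ k * G (max x x₀ : ℕ) :=
      mul_le_mul_of_nonneg_left h5 (Nat.cast_nonneg _)
    rw [Nat.cast_succ]
    linarith

open Real in
theorem exists_k {x : ℕ} (hx : 16 ≤ x) : ∃ k : ℕ, x < 2 ^ (2 ^ k) ∧ (k : ℝ) ≤ 4 * log (log x) := by
  have hx0 : (0 : ℝ) < x := by exact_mod_cast (by omega : 0 < x)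
  have hl2 : (0.6931471803 : ℝ) < log 2 := log_two_gt_d9
  have hl2' : log 2 < (0.6931471808 : ℝ) := log_two_lt_d9
  have h16 : 4 * log 2 ≤ log x := by
    have : log ((2 : ℝ) ^ 4) ≤ log x := log_le_log (by norm_num) (by norm_num; exact_mod_cast hx)
    rwa [log_pow] at this
  have hlx : 2.7725 ≤ log x := by linarith
  have hlx0 : 0 < log x := by linarith
  have hL : 1 ≤ log (log x) := by
    rw [Real.le_log_iff_exp_le hlx0]
    have := exp_one_lt_d9
    linarith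
  refine ⟨⌊log (log x) / log 2⌋₊ + 2, ?_, ?_⟩
  · have h1 : log (log x) / log 2 < ⌊log (log x) / log 2⌋₊ + 1 := Nat.lt_floor_add_one _
    set m := ⌊log (log x) / log 2⌋₊ with hm
    have h2 : log x ≤ (2 : ℝ) ^ (m + 1) := by
      rw [div_lt_iff₀ (by linarith)] at h1
      have h3 : log (log x) ≤ log ((2 : ℝ) ^ (m + 1)) := by
        rw [log_pow]
        push_cast
        linarith
      exact (log_le_log_iff hlx0 (by positivity)).1 h3
    have h4 : log x < (2 : ℝ) ^ (m + 2) * log 2 := by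
      rw [pow_succ]
      have : (0 : ℝ) < 2 ^ (m + 1) := by positivity
      nlinarith
    have h5 : (x : ℝ) < (2 : ℝ) ^ (2 ^ (m + 2)) := by
      rw [← log_lt_log_iff hx0 (by positivity), log_pow]
      push_cast
      exact h4
    exact_mod_cast h5
  · have h1 : (⌊log (log x) / log 2⌋₊ : ℝ) ≤ log (log x) / log 2 :=
      Nat.floor_le (div_nonneg (by linarith) (by linarith))
    have h2 : log (log x) / log 2 ≤ 2 * log (log x) := by
      rw [div_le_iff₀ (by linarith)]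
      nlinarith
    push_cast
    linarith

end Pool.Agent.Run7.h440.WT
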