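import Pool.Agent.Run7.h440.WT.C

set_option autoImplicit false

/-!
# Composite numbers without a small witness: powers of `n` and subexponential ranges
-/

namespace Pool.Agent.Run7.h440.WT

open Finset Filter Topology Real Pool.Agent.H379R2.W Pool.Agent.Run7.h440

/-- the composite numbers which pass for all bases up to `Y n` -/
def SS (Y : ℕ → ℝ) : Set ℕ := {n | 2 ≤ n ∧ ¬ n.Prime ∧ ∀ b : ℕ, 1 < b → (b : ℝ) ≤ Y n → Passes n b}

theorem card_le_Exc {Y : ℕ → ℝ} [DecidablePred (· ∈ SS Y)] {x y : ℕ}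
    (h : ∀ n : ℕ, x < n ^ 2 → (y : ℝ) ≤ Y n) :
    (#{n ∈ range (x + 1) | x < n ^ 2 ∧ n ∈ SS Y} : ℝ) ≤ (Exc x y).card := by
  have : #{n ∈ range (x + 1) | x < n ^ 2 ∧ n ∈ SS Y} ≤ (Exc x y).card := by
    apply card_le_card
    intro n hn
    rw [mem_filter, mem_range] at hn
    obtain ⟨h1, h2, h3, h4, h5⟩ := hn
    rw [mem_Exc]
    refine ⟨by omega, h3, h4, fun b hb1 hb2 => h5 b hb1 ?_⟩
    exact le_trans (by exact_mod_cast hb2) (h n h2)
  exact_mod_cast this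

theorem sqrt_rpow {x n : ℕ} (h : x < n ^ 2) {θ : ℝ} (hθ : 0 < θ) :
    (x : ℝ) ^ (θ / 2) ≤ (n : ℝ) ^ θ := by
  have h1 : (x : ℝ) ≤ (n : ℝ) ^ (2 : ℝ) := by
    have : (x : ℝ) ≤ (n : ℝ) ^ 2 := by exact_mod_cast h.le
    calc (x : ℝ) ≤ (n : ℝ) ^ 2 := this
      _ = (n : ℝ) ^ (2 : ℝ) := by norm_cast
  calc (x : ℝ) ^ (θ / 2) ≤ ((n : ℝ) ^ (2 : ℝ)) ^ (θ / 2) :=
        Real.rpow_le_rpow (Nat.cast_nonneg _) h1 (by positivity)
    _ = (n : ℝ) ^ θ := by
        rw [← Real.rpow_mul (Nat.cast_nonneg _)]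
        congr 1
        ring

theorem theta_part {θ : ℝ} (hθ : 0 < θ) [DecidablePred (· ∈ SS (fun n => (n : ℝ) ^ θ))] :
    ∃ K : ℝ, ∃ x₀ : ℕ, 0 ≤ K ∧ ∀ x : ℕ, x₀ ≤ x →
      (#{n ∈ range (x + 1) | x < n ^ 2 ∧ n ∈ SS (fun n => (n : ℝ) ^ θ)} : ℝ) ≤ K := by
  obtain ⟨K, hK, hU⟩ := unif
  obtain ⟨J, hJ⟩ : ∃ J : ℕ, J = ⌈8 / θ⌉₊ := ⟨_, rfl⟩
  have hJ1 : 1 ≤ J := by
    rw [hJ]
    exact Nat.ceil_pos.2 (by positivity)
  have hJ2 : 2 ≤ θ / 4 * J := by
    have h1 : 8 / θ ≤ J := hJ ▸ Nat.le_ceil _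
    rw [div_le_iff₀ hθ] at h1
    linarith
  have hev : ∀ᶠ x : ℝ in atTop, x ^ (θ / 4) + 1 ≤ x ^ (θ / 2) ∧ 1 < x ∧
      (K * (J : ℝ) ^ 2) ^ 8 ≤ x ^ (θ / 4) := by
    filter_upwards [(tendsto_rpow_atTop (show 0 < θ / 4 by positivity)).eventually_ge_atTop 2,
      eventually_gt_atTop 1, (tendsto_rpow_atTop (show 0 < θ / 4 by positivity)).eventually_ge_atTop
        ((K * (J : ℝ) ^ 2) ^ 8)] with x h1 h2 h3
    refine ⟨?_, h2, h3⟩
    have e : x ^ (θ / 2) = x ^ (θ / 4) * x ^ (θ / 4) := by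
      rw [← Real.rpow_add (by linarith)]
      congr 1
      ring
    rw [e]
    nlinarith
  obtain ⟨x₀, hx₀⟩ := eventually_atTop.1 (tendsto_natCast_atTop_atTop.eventually hev)
  refine ⟨288 * (K * (J : ℝ) ^ 2) ^ (2 * J), x₀, by positivity, fun x hx => ?_⟩
  obtain ⟨h1, h2, h3⟩ := hx₀ x hx
  have hx0 : (0 : ℝ) < x := by linarith
  obtain ⟨y, hy⟩ : ∃ y : ℕ, y = ⌊(x : ℝ) ^ (θ / 2)⌋₊ := ⟨_, rfl⟩
  have hy1 : (y : ℝ) ≤ (x : ℝ) ^ (θ / 2) := hy ▸ Nat.floor_le (by positivity)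
  have hy2 : (x : ℝ) ^ (θ / 4) ≤ y := by
    have := Nat.lt_floor_add_one ((x : ℝ) ^ (θ / 2))
    rw [← hy] at this
    linarith
  refine (card_le_Exc (x := x) (y := y) fun n hn => hy1.trans (sqrt_rpow hn hθ)).trans ?_
  refine hU x y J hJ1 ?_ (h3.trans hy2)
  have h4 : (x : ℝ) ^ 2 ≤ (y : ℝ) ^ J := by
    calc (x : ℝ) ^ 2 = (x : ℝ) ^ (2 : ℝ) := by norm_cast
      _ ≤ (x : ℝ) ^ (θ / 4 * J) := Real.rpow_le_rpow_of_exponent_le h2.le hJ2
      _ = ((x : ℝ) ^ (θ / 4)) ^ J := by rw [Real.rpow_mul hx0.le, Real.rpow_natCast]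
      _ ≤ (y : ℝ) ^ J := pow_le_pow_left₀ (by positivity) hy2 J
  exact_mod_cast h4

theorem theta_total {θ : ℝ} (hθ : 0 < θ) [DecidablePred (· ∈ SS (fun n => (n : ℝ) ^ θ))] :
    ∃ C : ℝ, ∀ x : ℕ, 16 ≤ x →
      (#{n ∈ range (x + 1) | n ∈ SS (fun n => (n : ℝ) ^ θ)} : ℝ) ≤ C * log (log x) := by
  obtain ⟨K, x₀, hK0, hK⟩ := theta_part hθ
  refine ⟨x₀ + 2 + 4 * K, fun x hx => ?_⟩
  obtain ⟨k, hk1, hk2⟩ := exists_k hx
  have h1 := dyadic (S := SS (fun n => (n : ℝ) ^ θ)) (x₀ := x₀) (G := fun _ => K)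
    (fun _ _ => hK0) (fun _ _ _ _ => le_rfl) hK k x hk1
  have hl : 1 ≤ log (log x) := by
    have hx0 : (0 : ℝ) < x := by exact_mod_cast (by omega : 0 < x)
    have hl2 : (0.6931471803 : ℝ) < log 2 := log_two_gt_d9
    have h16 : 4 * log 2 ≤ log x := by
      have : log ((2 : ℝ) ^ 4) ≤ log x := log_le_log (by norm_num) (by norm_num; exact_mod_cast hx)
      rwa [log_pow] at this
    rw [Real.le_log_iff_exp_le (by linarith)]
    have := exp_one_lt_d9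
    linarith
  have h2 : (k : ℝ) * K ≤ 4 * log (log x) * K := mul_le_mul_of_nonneg_right hk2 hK0
  have h3 : (x₀ + 2 : ℝ) ≤ (x₀ + 2) * log (log x) := by
    have : (0 : ℝ) ≤ x₀ := Nat.cast_nonneg _
    nlinarith
  calc _ ≤ _ := h1
    _ ≤ (x₀ + 2) * log (log x) + 4 * log (log x) * K := by linarith
    _ = _ := by ring

theorem log_small {c δ : ℝ} (hc : 0 < c) (hδ : 0 < δ) (A B : ℝ) :
    ∀ᶠ L : ℝ in atTop, A + B * log L ≤ c * L ^ δ := by
  have h1 := (isLittleO_log_rpow_atTop hδ).bound (show 0 < c / (2 * (|B| + 1)) by positivity)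
  filter_upwards [h1, (tendsto_rpow_atTop hδ).eventually_ge_atTop (2 * A / c),
    eventually_ge_atTop (1 : ℝ)] with L h2 h3 h4
  have hlog : 0 ≤ log L := log_nonneg h4
  have hL0 : 0 < L ^ δ := Real.rpow_pos_of_pos (by linarith) _
  rw [Real.norm_of_nonneg hlog, Real.norm_of_nonneg hL0.le] at h2
  rw [div_le_iff₀ hc] at h3
  have h5 : B * log L ≤ |B| * log L := mul_le_mul_of_nonneg_right (le_abs_self B) hlog
  have h6 : |B| * log L ≤ c / 2 * L ^ δ := by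
    calc |B| * log L ≤ (|B| + 1) * log L := mul_le_mul_of_nonneg_right (by linarith) hlog
      _ ≤ (|B| + 1) * (c / (2 * (|B| + 1)) * L ^ δ) :=
          mul_le_mul_of_nonneg_left h2 (by positivity)
      _ = c / 2 * L ^ δ := by
          have : |B| + 1 ≠ 0 := by positivity
          field_simp
  linarith

theorem sub_part {a ε : ℝ} (ha : 0 < a) (ha1 : a < 1) (hε : 0 < ε)
    [DecidablePred (· ∈ SS (fun n => exp ((log n) ^ a)))] :
    ∃ x₀ : ℕ, ∀ x : ℕ, x₀ ≤ x →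
      (#{n ∈ range (x + 1) | x < n ^ 2 ∧ n ∈ SS (fun n => exp ((log n) ^ a))} : ℝ) ≤
        exp ((log x) ^ (1 - a + ε)) := by
  obtain ⟨K, hK, hU⟩ := unif
  have hK0 : 0 < K := by linarith
  have hev : ∀ᶠ L : ℝ in atTop, 4 ≤ L ∧ 4 ≤ L ^ a ∧
      8 * log (81 * K) + 16 * log L ≤ 1 / 4 * L ^ a ∧
      (log 288 + 18 * log (81 * K)) + 36 * log L ≤ 1 * L ^ ε := by
    filter_upwards [eventually_ge_atTop (4 : ℝ), (tendsto_rpow_atTop ha).eventually_ge_atTop 4,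
      log_small (show (0 : ℝ) < 1 / 4 by norm_num) ha (8 * log (81 * K)) 16,
      log_small one_pos hε (log 288 + 18 * log (81 * K)) 36] with L h1 h2 h3 h4
    exact ⟨h1, h2, h3, h4⟩
  obtain ⟨x₀, hx₀⟩ := eventually_atTop.1
    (tendsto_natCast_atTop_atTop.eventually (tendsto_log_atTop.eventually hev))
  refine ⟨max x₀ 1, fun x hx => ?_⟩
  obtain ⟨h1, h2, h3, h4⟩ := hx₀ x (by omega)
  have hx0 : (0 : ℝ) < x := by exact_mod_cast (by omega : 0 < x)
  obtain ⟨L, hL⟩ : ∃ L : ℝ, L = log x := ⟨_, rfl⟩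
  rw [← hL] at h1 h2 h3 h4 ⊢
  have hL0 : 0 < L := by linarith
  have hLa : 1 ≤ L ^ (1 - a) := Real.one_le_rpow (by linarith) (by linarith)
  obtain ⟨y, hy⟩ : ∃ y : ℕ, y = ⌊exp ((L / 2) ^ a)⌋₊ := ⟨_, rfl⟩
  have hy1 : (y : ℝ) ≤ exp ((L / 2) ^ a) := hy ▸ Nat.floor_le (exp_pos _).le
  have hhalf : L ^ a / 2 ≤ (L / 2) ^ a := by
    rw [Real.div_rpow hL0.le (by norm_num)]
    apply div_le_div_of_nonneg_left (by positivity) (by positivity)
    calc (2 : ℝ) ^ a ≤ (2 : ℝ) ^ (1 : ℝ) := Real.rpow_le_rpow_of_exponent_le (by norm_num) ha1.le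
      _ = 2 := Real.rpow_one 2
  have hy2 : exp (L ^ a / 4) ≤ y := by
    have h5 := Nat.lt_floor_add_one (exp ((L / 2) ^ a))
    rw [← hy] at h5
    have h6 : exp (L ^ a / 4) + 1 ≤ exp (L ^ a / 2) := by
      have e : exp (L ^ a / 2) = exp (L ^ a / 4) * exp (L ^ a / 4) := by
        rw [← exp_add]
        congr 1
        ring
      have h7 : 2 ≤ exp (L ^ a / 4) := by
        have := add_one_le_exp (L ^ a / 4)
        linarith
      rw [e]
      nlinarith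
    have h8 : exp (L ^ a / 2) ≤ exp ((L / 2) ^ a) := exp_le_exp.2 hhalf
    linarith
  obtain ⟨J, hJ⟩ : ∃ J : ℕ, J = ⌈8 * L ^ (1 - a)⌉₊ := ⟨_, rfl⟩
  have hJ1 : 1 ≤ J := by
    rw [hJ]
    exact Nat.ceil_pos.2 (by positivity)
  have hJr : (1 : ℝ) ≤ J := by exact_mod_cast hJ1
  have hJlow : 8 * L ^ (1 - a) ≤ J := hJ ▸ Nat.le_ceil _
  have hJup : (J : ℝ) ≤ 9 * L ^ (1 - a) := by
    have := Nat.ceil_lt_add_one (show 0 ≤ 8 * L ^ (1 - a) by positivity)
    rw [← hJ] at this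
    linarith
  have hJL : (J : ℝ) ≤ 9 * L := by
    refine hJup.trans (mul_le_mul_of_nonneg_left ?_ (by norm_num))
    calc L ^ (1 - a) ≤ L ^ (1 : ℝ) := Real.rpow_le_rpow_of_exponent_le (by linarith) (by linarith)
      _ = L := Real.rpow_one L
  have hKJ0 : 0 < K * (J : ℝ) ^ 2 := by positivity
  have hlogKJ : log (K * (J : ℝ) ^ 2) ≤ log (81 * K) + 2 * log L := by
    have h5 : K * (J : ℝ) ^ 2 ≤ 81 * K * L ^ 2 := by
      have : (J : ℝ) ^ 2 ≤ (9 * L) ^ 2 := pow_le_pow_left₀ (by linarith) hJL 2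
      nlinarith
    calc log (K * (J : ℝ) ^ 2) ≤ log (81 * K * L ^ 2) := log_le_log hKJ0 h5
      _ = log (81 * K) + 2 * log L := by
        rw [log_mul (by positivity) (by positivity), log_pow]
        push_cast
        ring
  have hlogKJ0 : 0 ≤ log (K * (J : ℝ) ^ 2) := log_nonneg (by nlinarith)
  refine (card_le_Exc (x := x) (y := y) fun n hn => hy1.trans ?_).trans ((hU x y J hJ1 ?_ ?_).trans ?_)
  · apply exp_le_exp.2
    apply Real.rpow_le_rpow (by positivity) _ ha.le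
    have hn0 : (0 : ℝ) < n := by
      have : 0 < n := by
        rcases Nat.eq_zero_or_pos n with h0 | h0
        · rw [h0] at hn; simp at hn
        · exact h0
      exact_mod_cast this
    have h5 : log x ≤ log ((n : ℝ) ^ 2) := log_le_log hx0 (by exact_mod_cast hn.le)
    rw [log_pow] at h5
    push_cast at h5
    rw [hL]
    linarith
  · have h5 : (x : ℝ) ^ 2 ≤ (y : ℝ) ^ J := by
      have e1 : (x : ℝ) ^ 2 = exp (2 * L) := by
        rw [hL, ← log_rpow hx0, exp_log (by positivity)]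
        norm_cast
      calc (x : ℝ) ^ 2 = exp (2 * L) := e1
        _ ≤ exp (J * (L ^ a / 4)) := by
            apply exp_le_exp.2
            have e2 : L ^ (1 - a) * L ^ a = L := by
              rw [← Real.rpow_add hL0]
              have : 1 - a + a = 1 := by ring
              rw [this, Real.rpow_one]
            have h6 : 8 * L ^ (1 - a) * (L ^ a / 4) ≤ J * (L ^ a / 4) :=
              mul_le_mul_of_nonneg_right hJlow (by positivity)
            have e3 : 8 * L ^ (1 - a) * (L ^ a / 4) = 2 * (L ^ (1 - a) * L ^ a) := by ring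
            rw [e3, e2] at h6
            exact h6
        _ = (exp (L ^ a / 4)) ^ J := by rw [← exp_nat_mul]
        _ ≤ (y : ℝ) ^ J := pow_le_pow_left₀ (exp_pos _).le hy2 J
    exact_mod_cast h5
  · refine le_trans ?_ hy2
    rw [← log_le_iff_le_exp (by positivity), log_pow]
    push_cast
    linarith
  · rw [← log_le_iff_le_exp (by positivity), log_mul (by norm_num) (by positivity), log_pow]
    push_cast
    have h5 : 2 * (J : ℝ) * log (K * (J : ℝ) ^ 2) ≤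
        18 * L ^ (1 - a) * (log (81 * K) + 2 * log L) := by
      apply mul_le_mul (by linarith) hlogKJ hlogKJ0 (by positivity)
    have h6 : log 288 ≤ L ^ (1 - a) * log 288 := le_mul_of_one_le_left (log_nonneg (by norm_num)) hLa
    have h7 : L ^ (1 - a) * ((log 288 + 18 * log (81 * K)) + 36 * log L) ≤ L ^ (1 - a) * (1 * L ^ ε) :=
      mul_le_mul_of_nonneg_left h4 (by positivity)
    have e : L ^ (1 - a) * (1 * L ^ ε) = L ^ (1 - a + ε) := by
      rw [one_mul, ← Real.rpow_add hL0]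
    rw [e] at h7
    calc log 288 + 2 * (J : ℝ) * log (K * (J : ℝ) ^ 2)
        ≤ L ^ (1 - a) * log 288 + 18 * L ^ (1 - a) * (log (81 * K) + 2 * log L) := add_le_add h6 h5
      _ = L ^ (1 - a) * ((log 288 + 18 * log (81 * K)) + 36 * log L) := by ring
      _ ≤ _ := h7

theorem sub_total {a ε : ℝ} (ha : 0 < a) (ha1 : a < 1) (hε : 0 < ε)
    [DecidablePred (· ∈ SS (fun n => exp ((log n) ^ a)))] :
    ∃ x₀ : ℕ, ∀ x : ℕ, x₀ ≤ x →
      (#{n ∈ range (x + 1) | n ∈ SS (fun n => exp ((log n) ^ a))} : ℝ) ≤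
        exp ((log x) ^ (1 - a + ε)) := by
  obtain ⟨x₁, hx₁⟩ := sub_part ha ha1 (half_pos hε)
  set b : ℝ := 1 - a + ε / 2 with hb
  have hb0 : 0 < b := by rw [hb]; linarith
  have hev : ∀ᶠ L : ℝ in atTop, 1 ≤ L ∧ 2 ≤ L ^ (ε / 2) ∧ (x₁ + 1 + 2 : ℝ) + 4 * log L ≤ 1 * L ^ b := by
    filter_upwards [eventually_ge_atTop (1 : ℝ),
      (tendsto_rpow_atTop (half_pos hε)).eventually_ge_atTop 2,
      log_small one_pos hb0 (x₁ + 1 + 2) 4] with L h1 h2 h3
    exact ⟨h1, h2, h3⟩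
  obtain ⟨x₀, hx₀⟩ := eventually_atTop.1
    (tendsto_natCast_atTop_atTop.eventually (tendsto_log_atTop.eventually hev))
  refine ⟨max x₀ (max 16 (x₁ + 1)), fun x hx => ?_⟩
  obtain ⟨h1, h2, h3⟩ := hx₀ x (by omega)
  obtain ⟨k, hk1, hk2⟩ := exists_k (x := x) (by omega)
  have h4 := dyadic (S := SS (fun n => exp ((log n) ^ a))) (x₀ := x₁ + 1)
    (G := fun t => exp ((log t) ^ b)) (fun _ _ => (exp_pos _).le) (by
      intro u v hu huv
      apply exp_le_exp.2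
      have hu0 : (0 : ℝ) < u := by exact_mod_cast (by omega : 0 < u)
      apply Real.rpow_le_rpow (log_nonneg (by exact_mod_cast (by omega : 1 ≤ u))) _ hb0.le
      exact log_le_log hu0 (by exact_mod_cast huv)) (fun u hu => hx₁ u (by omega)) k x hk1
  have hmax : max x (x₁ + 1) = x := max_eq_left (by omega)
  rw [hmax] at h4
  refine h4.trans ?_
  set L := log (x : ℝ) with hL
  have hL0 : 0 < L := by linarith
  have he1 : 1 ≤ exp (L ^ b) := one_le_exp (by positivity)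
  have hll : 0 ≤ log L := log_nonneg h1
  have h5 : ((x₁ + 1 : ℕ) : ℝ) + 2 + k * exp (L ^ b) ≤ (x₁ + 1 + 2 + 4 * log L) * exp (L ^ b) := by
    have h6 : (k : ℝ) * exp (L ^ b) ≤ 4 * log L * exp (L ^ b) :=
      mul_le_mul_of_nonneg_right hk2 (exp_pos _).le
    have h7 : (x₁ + 1 + 2 : ℝ) ≤ (x₁ + 1 + 2) * exp (L ^ b) :=
      le_mul_of_one_le_right (by positivity) he1
    push_cast
    linarith
  refine h5.trans ?_
  have h8 : (x₁ + 1 + 2 + 4 * log L : ℝ) ≤ exp (L ^ b) := by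
    have := add_one_le_exp (L ^ b)
    linarith
  calc (x₁ + 1 + 2 + 4 * log L) * exp (L ^ b) ≤ exp (L ^ b) * exp (L ^ b) :=
        mul_le_mul_of_nonneg_right h8 (exp_pos _).le
    _ = exp (2 * L ^ b) := by rw [← exp_add]; congr 1; ring
    _ ≤ exp (L ^ (1 - a + ε)) := by
        apply exp_le_exp.2
        have e : L ^ (1 - a + ε) = L ^ (ε / 2) * L ^ b := by
          rw [← Real.rpow_add hL0]
          congr 1
          rw [hb]
          ring
        rw [e]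
        exact mul_le_mul_of_nonneg_right h2 (by positivity)

end Pool.Agent.Run7.h440.WT
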